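import Pool.Agent.H7.UC.Iface

set_option autoImplicit false

/-! Chains of degree at most two: components, parity, the unique partner of a leaf, path chains. -/

namespace Pool.Agent.H98.UC

open Pool.Agent.H7.UC

theorem z2 (a : ZMod 2) : a = 0 ∨ a = 1 := by
  revert a; decide

theorem z2_ne {a : ZMod 2} (h : a ≠ 0) : a = 1 := (z2 a).resolve_left h

theorem z2_add_self (a : ZMod 2) : a + a = 0 := by
  revert a; decide

theorem ind_mem {α : Type*} {s : Set α} {a : α} (h : a ∈ s) : ind s a = 1 := by
  unfold ind; simp [h]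

theorem ind_not {α : Type*} {s : Set α} {a : α} (h : a ∉ s) : ind s a = 0 := by
  unfold ind; simp [h]

theorem ind_eq_one {α : Type*} {s : Set α} {a : α} : ind s a = 1 ↔ a ∈ s := by
  constructor
  · intro h
    by_contra hn
    rw [ind_not hn] at h
    exact absurd h (by decide)
  · exact ind_mem

theorem ind_single_self {α : Type*} (a : α) : ind {a} a = 1 := ind_mem rfl

theorem ind_single_ne {α : Type*} {a b : α} (h : b ≠ a) : ind {a} b = 0 := ind_not (by simpa using h)

theorem adjC_symm {x : Ed → ZMod 2} {v w : Vx} (h : AdjC x v w) : AdjC x w v := by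
  obtain ⟨k, rfl, hk⟩ := h
  exact ⟨k, (nb_nb v k).symm, by rw [ed_nb]; exact hk⟩

theorem conn_refl (x : Ed → ZMod 2) (v : Vx) : Conn x v v := Relation.ReflTransGen.refl

theorem conn_trans {x : Ed → ZMod 2} {u v w : Vx} (h : Conn x u v) (h' : Conn x v w) : Conn x u w :=
  Relation.ReflTransGen.trans h h'

theorem conn_symm {x : Ed → ZMod 2} {v w : Vx} (h : Conn x v w) : Conn x w v := by
  induction h with
  | refl => exact Relation.ReflTransGen.refl
  | tail _ h ih => exact Relation.ReflTransGen.head (adjC_symm h) ih

theorem conn_mono {x y : Ed → ZMod 2} (h : ∀ e, x e = 1 → y e = 1) {v w : Vx} (hc : Conn x v w) :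
    Conn y v w := by
  induction hc with
  | refl => exact Relation.ReflTransGen.refl
  | tail _ h' ih =>
    obtain ⟨k, hk, h1⟩ := h'
    exact Relation.ReflTransGen.tail ih ⟨k, hk, h _ h1⟩

theorem conn_step {x : Ed → ZMod 2} {v : Vx} {k : Fin 3} (h : x (ed v k) = 1) :
    Conn x v (nb v k) := Relation.ReflTransGen.single ⟨k, rfl, h⟩

/-- the graph of a chain -/
def Gr (x : Ed → ZMod 2) : SimpleGraph Vx where
  Adj v w := AdjC x v w
  symm := ⟨fun _ _ h => adjC_symm h⟩
  loopless := ⟨fun v h => by obtain ⟨k, h, _⟩ := h; exact nb_ne v k h.symm⟩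

theorem conn_iff {x : Ed → ZMod 2} {v w : Vx} : Conn x v w ↔ (Gr x).Reachable v w := by
  rw [SimpleGraph.reachable_iff_reflTransGen]; rfl

section Graph

variable {α : Type*} {G : SimpleGraph α}

/-- every neighbour is the same -/
def Leaf (G : SimpleGraph α) (v : α) : Prop := ∀ a b, G.Adj v a → G.Adj v b → a = b

/-- degree at most two -/
def D2' (G : SimpleGraph α) (v : α) : Prop :=
  ∀ a b c, G.Adj v a → G.Adj v b → G.Adj v c → a = b ∨ b = c ∨ a = c

theorem path_closed (hdeg : ∀ v, D2' G v) {s t : α} (p : G.Walk s t) : p.IsPath → Leaf G t →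
    ∀ w ∈ p.support, w ≠ s → ∀ w', G.Adj w w' → w' ∈ p.support := by
  induction p with
  | nil => intro _ _ w hw hs; simp at hw; exact absurd hw hs
  | @cons s a t h q ih =>
    intro hp ht w hw hws w' hw'
    rw [SimpleGraph.Walk.cons_isPath_iff] at hp
    rw [SimpleGraph.Walk.support_cons, List.mem_cons] at hw ⊢
    rcases hw with hw | hw
    · exact absurd hw hws
    by_cases hwa : w = a
    · subst hwa
      cases q with
      | nil => left; exact ht _ _ hw' h.symm
      | @cons _ b _ h' q' =>
        have hb : b ∈ (SimpleGraph.Walk.cons h' q').support := by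
          rw [SimpleGraph.Walk.support_cons]
          exact List.mem_cons_of_mem _ (SimpleGraph.Walk.start_mem_support q')
        rcases hdeg w s b w' h.symm h' hw' with e | e | e
        · subst e; exact absurd hb hp.2
        · subst e; right; exact hb
        · left; exact e.symm
    · right; exact ih hp.1 ht w hw hwa w' hw'

theorem leaf_end {s t : α} (p : G.Walk s t) : p.IsPath →
    ∀ w ∈ p.support, Leaf G w → w = s ∨ w = t := by
  induction p with
  | nil => intro _ w hw _; simp at hw; exact Or.inl hw
  | @cons s a t h q ih =>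
    intro hp w hw hl
    rw [SimpleGraph.Walk.cons_isPath_iff] at hp
    rw [SimpleGraph.Walk.support_cons, List.mem_cons] at hw
    rcases hw with hw | hw
    · exact Or.inl hw
    rcases ih hp.1 w hw hl with e | e
    · subst e
      cases q with
      | nil => exact Or.inr rfl
      | @cons _ b _ h' q' =>
        exfalso
        have hb : b ∈ (SimpleGraph.Walk.cons h' q').support := by
          rw [SimpleGraph.Walk.support_cons]
          exact List.mem_cons_of_mem _ (SimpleGraph.Walk.start_mem_support q')
        have := hl _ _ h.symm h'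
        subst this
        exact hp.2 hb
    · exact Or.inr e

/-- in a graph of degree at most two a leaf is connected to at most one other leaf -/
theorem unique_leaf (hdeg : ∀ v, D2' G v) {s t t' : α} (hs : Leaf G s) (ht : Leaf G t)
    (ht' : Leaf G t') (h : G.Reachable s t) (h' : G.Reachable s t') (hst : s ≠ t) (hst' : s ≠ t') :
    t = t' := by
  classical
  obtain ⟨p, hp⟩ := h.exists_isPath
  have hcl : ∀ w ∈ p.support, ∀ w', G.Adj w w' → w' ∈ p.support := by
    intro w hw w' hw'
    by_cases hws : w = s
    · subst hws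
      cases p with
      | nil => exact absurd rfl hst
      | @cons _ a _ h q =>
        rw [hs _ _ hw' h, SimpleGraph.Walk.support_cons]
        exact List.mem_cons_of_mem _ (SimpleGraph.Walk.start_mem_support q)
    · exact path_closed hdeg p hp ht w hw hws w' hw'
  have hmem : t' ∈ p.support := by
    rw [SimpleGraph.reachable_iff_reflTransGen] at h'
    have : ∀ w, Relation.ReflTransGen G.Adj s w → w ∈ p.support := by
      intro w hw
      induction hw with
      | refl => exact SimpleGraph.Walk.start_mem_support p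
      | tail _ hadj ih => exact hcl _ ih _ hadj
    exact this _ h'
  rcases leaf_end p hp t' hmem ht' with e | e
  · exact absurd e.symm hst'
  · exact e.symm

end Graph

/-- a vertex with a missing edge has degree at most two -/
theorem deg_two {x : Ed → ZMod 2} {v : Vx} (h0 : ∃ k, x (ed v k) = 0) : D2' (Gr x) v := by
  obtain ⟨k0, h0⟩ := h0
  rintro a b c ⟨k, rfl, hk⟩ ⟨l, rfl, hl⟩ ⟨m, rfl, hm⟩
  have h1 : k ≠ k0 := by rintro rfl; rw [h0] at hk; exact absurd hk (by decide)
  have h2 : l ≠ k0 := by rintro rfl; rw [h0] at hl; exact absurd hl (by decide)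
  have h3 : m ≠ k0 := by rintro rfl; rw [h0] at hm; exact absurd hm (by decide)
  rw [nb_inj, nb_inj, nb_inj]
  revert k l m k0
  intro k0 _ k _ h1 l _ h2 m _ h3
  omega

/-- an odd vertex with a missing edge is a leaf -/
theorem leaf_of {x : Ed → ZMod 2} {v : Vx} (h1 : dv x v = 1) (h0 : ∃ k, x (ed v k) = 0) :
    Leaf (Gr x) v := by
  obtain ⟨k0, h0⟩ := h0
  rintro a b ⟨k, rfl, hk⟩ ⟨l, rfl, hl⟩
  rw [nb_inj]
  by_contra hkl
  unfold dv at h1
  fin_cases k0 <;> fin_cases k <;> fin_cases l <;> simp_all

/-- an even vertex has a missing edge -/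
theorem miss_of_even {x : Ed → ZMod 2} {v : Vx} (h : dv x v = 0) : ∃ k, x (ed v k) = 0 := by
  by_contra hn
  push Not at hn
  have := z2_ne (hn 0)
  have := z2_ne (hn 1)
  have := z2_ne (hn 2)
  unfold dv at h
  simp_all
  exact absurd h (by decide)

theorem dv_add (x y : Ed → ZMod 2) (v : Vx) : dv (fun e => x e + y e) v = dv x v + dv y v := by
  unfold dv; ring

/-- the chain with one edge -/
noncomputable def sg (e : Ed) (e' : Ed) : ZMod 2 := by
  classical exact if e' = e then 1 else 0

theorem sg_self (e : Ed) : sg e e = 1 := by unfold sg; simp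
theorem sg_ne {e e' : Ed} (h : e' ≠ e) : sg e e' = 0 := by unfold sg; simp [h]

theorem dv_sg (b : Vx) (k : Fin 3) (v : Vx) : dv (sg (ed b k)) v = ind {b} v + ind {nb b k} v := by
  by_cases h : v = b
  · subst h
    rw [ind_single_self, ind_single_ne (nb_ne v k).symm]
    unfold dv
    have e1 : ∀ l, l ≠ k → sg (ed v k) (ed v l) = 0 := by
      intro l hl
      apply sg_ne
      rw [Ne, ed_eq_iff]
      rintro ⟨h, _⟩
      exact hl h
    have e2 := sg_self (ed v k)
    fin_cases k
    · have := e1 1 (by decide); have := e1 2 (by decide); simp_all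
    · have := e1 0 (by decide); have := e1 2 (by decide); simp_all
    · have := e1 0 (by decide); have := e1 1 (by decide); simp_all
  · by_cases h' : v = nb b k
    · subst h'
      rw [ind_single_self, ind_single_ne h]
      unfold dv
      have e1 : ∀ l, l ≠ k → sg (ed b k) (ed (nb b k) l) = 0 := by
        intro l hl
        apply sg_ne
        rw [Ne, ed_eq_iff]
        rintro ⟨h, _⟩
        exact hl h
      have e2 : sg (ed b k) (ed (nb b k) k) = 1 := by rw [ed_nb]; exact sg_self _
      fin_cases k
      · have := e1 1 (by decide); have := e1 2 (by decide); simp_all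
      · have := e1 0 (by decide); have := e1 2 (by decide); simp_all
      · have := e1 0 (by decide); have := e1 1 (by decide); simp_all
    · rw [ind_single_ne h, ind_single_ne h']
      unfold dv
      have e1 : ∀ l, sg (ed b k) (ed v l) = 0 := by
        intro l
        apply sg_ne
        rw [Ne, ed_eq_iff]
        rintro ⟨h1, h2 | h2⟩
        · exact h h2.symm
        · subst h1
          apply h'
          rw [h2, nb_nb]
      rw [e1, e1, e1]; rfl

/-- a connection contains a path chain -/
theorem exists_chain {x : Ed → ZMod 2} {s t : Vx} (h : Conn x s t) : ∃ P : Ed → ZMod 2,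
    (∀ e, P e ≠ 0 → x e = 1) ∧ (∀ v, dv P v = ind {s} v + ind {t} v) ∧
    (∀ v k, P (ed v k) ≠ 0 → Conn x s v) := by
  induction h with
  | refl =>
    refine ⟨fun _ => 0, fun e h => absurd rfl h, fun v => ?_, fun v k h => absurd rfl h⟩
    rw [z2_add_self]
    unfold dv; simp
  | @tail b c hsb hbc ih =>
    obtain ⟨P, h1, h2, h3⟩ := ih
    obtain ⟨k, rfl, hk⟩ := hbc
    refine ⟨fun e => P e + sg (ed b k) e, fun e he => ?_, fun v => ?_, fun v l hl => ?_⟩
    · by_cases hP : P e = 0
      · by_cases hs : e = ed b k
        · subst hs; exact hk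
        · simp only [hP, sg_ne hs] at he
          exact absurd rfl he
      · exact h1 e hP
    · rw [dv_add, h2, dv_sg]
      have := z2_add_self (ind {b} v)
      linear_combination this
    · by_cases hP : P (ed v l) = 0
      · by_cases hs : ed v l = ed b k
        · rw [ed_eq_iff] at hs
          obtain ⟨rfl, hs | hs⟩ := hs
          · subst hs; exact hsb
          · have : v = nb b l := by rw [hs, nb_nb]
            subst this
            exact conn_trans hsb (conn_step hk)
        · exfalso
          simp only [hP, sg_ne hs] at hl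
          exact hl rfl
      · exact h3 v l hP

/-- handshake: a finite set of vertices closed under the chain has an even number of odd vertices -/
theorem parity {x : Ed → ZMod 2} (A : Finset Vx) (hA : ∀ v ∈ A, ∀ k, x (ed v k) = 1 → nb v k ∈ A) :
    ∑ v ∈ A, dv x v = 0 := by
  classical
  have h1 : ∑ v ∈ A, dv x v = ∑ p ∈ A ×ˢ (Finset.univ : Finset (Fin 3)), x (ed p.1 p.2) := by
    rw [Finset.sum_product]
    apply Finset.sum_congr rfl
    intro v _
    rw [Fin.sum_univ_three]
    rfl
  rw [h1, ← Finset.sum_filter_add_sum_filter_not _ (fun p => x (ed p.1 p.2) = 1)]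
  have h2 : ∑ p ∈ (A ×ˢ (Finset.univ : Finset (Fin 3))).filter (fun p => ¬ x (ed p.1 p.2) = 1),
      x (ed p.1 p.2) = 0 := by
    apply Finset.sum_eq_zero
    intro p hp
    rw [Finset.mem_filter] at hp
    exact (z2 _).resolve_right hp.2
  rw [h2, add_zero]
  apply Finset.sum_involution (fun p _ => (nb p.1 p.2, p.2))
  · intro p hp
    rw [Finset.mem_filter] at hp
    simp only [ed_nb]
    exact z2_add_self _
  · intro p _ _ h
    exact nb_ne p.1 p.2 (congrArg Prod.fst h)
  · intro p hp
    rw [Finset.mem_filter, Finset.mem_product] at hp ⊢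
    refine ⟨⟨hA _ hp.1.1 _ hp.2, Finset.mem_univ _⟩, ?_⟩
    simp only [ed_nb]
    exact hp.2
  · intro p _
    simp only [nb_nb]

/-- the component of a vertex in a chain of finite support is finite -/
theorem comp_finite {x : Ed → ZMod 2} (hx : {e | x e ≠ 0}.Finite) (s : Vx) :
    {w | Conn x s w}.Finite := by
  have h : {w | Conn x s w} ⊆ {s} ∪ (((fun e : Ed => ((e.1, e.2.1, false) : Vx)) '' {e | x e ≠ 0}) ∪
      ((fun e : Ed => nb (e.1, e.2.1, false) e.2.2) '' {e | x e ≠ 0})) := by
    intro w hw
    rcases Relation.ReflTransGen.cases_tail hw with e | ⟨b, _, k, hk, h1⟩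
    · left; exact e.symm ▸ rfl
    · right
      have hne : x (ed b k) ≠ 0 := by rw [h1]; decide
      have he : ed b k = ed ((ed b k).1, (ed b k).2.1, false) (ed b k).2.2 := rfl
      have he' := (ed_eq_iff _ _ _ _).1 he.symm
      rcases he'.2 with hb | hb
      · right
        refine ⟨ed b k, hne, ?_⟩
        simp only
        rw [hk]
        rw [← hb, ed_dir]
      · left
        refine ⟨ed b k, hne, ?_⟩
        have h2 := congrArg (fun z => nb z k) hb
        simp only [he'.1, nb_nb] at h2
        rw [hk]
        exact h2.symm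
  exact ((Set.finite_singleton s).union ((hx.image _).union (hx.image _))).subset h

/-- an odd vertex is connected to another odd vertex -/
theorem odd_partner {x : Ed → ZMod 2} (hx : {e | x e ≠ 0}.Finite) {s : Vx} (hs : dv x s = 1) :
    ∃ t, t ≠ s ∧ Conn x s t ∧ dv x t = 1 := by
  classical
  by_contra hn
  push Not at hn
  have hfin := comp_finite hx s
  have hp := parity (x := x) hfin.toFinset (by
    intro v hv k hk
    rw [Set.Finite.mem_toFinset] at hv ⊢
    exact conn_trans hv (conn_step hk))
  have hs' : s ∈ hfin.toFinset := by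
    rw [Set.Finite.mem_toFinset]; exact conn_refl x s
  rw [← Finset.add_sum_erase _ _ hs', hs] at hp
  have h0 : ∑ v ∈ hfin.toFinset.erase s, dv x v = 0 := by
    apply Finset.sum_eq_zero
    intro v hv
    rw [Finset.mem_erase, Set.Finite.mem_toFinset] at hv
    exact (z2 _).resolve_right (hn v hv.1 hv.2)
  rw [h0] at hp
  exact absurd hp (by decide)

/-- the unique partner: in a chain of finite support where every vertex has a missing edge, an odd
vertex is connected to exactly one other odd vertex -/
theorem partner {x : Ed → ZMod 2} (hx : {e | x e ≠ 0}.Finite) (h0 : ∀ v, ∃ k, x (ed v k) = 0)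
    {s : Vx} (hs : dv x s = 1) : ∃ t, (t ≠ s ∧ Conn x s t ∧ dv x t = 1) ∧
      ∀ t', t' ≠ s → Conn x s t' → dv x t' = 1 → t' = t := by
  obtain ⟨t, h1, h2, h3⟩ := odd_partner hx hs
  refine ⟨t, ⟨h1, h2, h3⟩, fun t' h1' h2' h3' => ?_⟩
  exact (unique_leaf (fun v => deg_two (h0 v)) (leaf_of hs (h0 s)) (leaf_of h3 (h0 t))
    (leaf_of h3' (h0 t')) (conn_iff.1 h2) (conn_iff.1 h2') h1.symm h1'.symm).symm

end Pool.Agent.H98.UC
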