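import Pool.Agent.H98.UC.D3

set_option autoImplicit false

/-! D4a (from D2). -/

namespace Pool.Agent.H98.UC

open Pool.Agent.H7.UC Pool.Agent.H75.Perc

/-- a connection in a chain supported on the edges of `U` is a connection inside its component -/
theorem conn_in {U : Finset Fc} {x : Ed → ZMod 2} (hx : ∀ e, x e ≠ 0 → inE U e) {s t : Vx}
    (h : Conn x s t) : Relation.ReflTransGen
      (fun a b => b ∈ {w | Conn x s w} ∧ ∃ k, b = nb a k ∧ inE U (ed a k)) s t := by
  have : ∀ t, Conn x s t → Conn x s t ∧ Relation.ReflTransGen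
      (fun a b => b ∈ {w | Conn x s w} ∧ ∃ k, b = nb a k ∧ inE U (ed a k)) s t := by
    intro t h
    induction h with
    | refl => exact ⟨conn_refl _ _, Relation.ReflTransGen.refl⟩
    | @tail b c _ hbc ih =>
      have hc : Conn x s c := Relation.ReflTransGen.tail ih.1 hbc
      obtain ⟨k, rfl, hk⟩ := hbc
      refine ⟨hc, ih.2.tail ⟨hc, k, rfl, hx _ (by rw [hk]; decide)⟩⟩
  exact (this t h).2

theorem isB_of_mem {U : Finset Fc} {n : ℕ} [NeZero n] (M : Marks U n) {j : Fin n} {e : Ed}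
    (h : e ∈ M.C j) : isB U e := (M.mem e).2 ⟨j, h⟩

theorem inE_of_isB {U : Finset Fc} {e : Ed} (h : isB U e) : inE U e := by
  rcases h with h | h
  · exact Or.inl h.1
  · exact Or.inr h.2

theorem not_mem_other {U : Finset Fc} {n : ℕ} [NeZero n] (M : Marks U n) {j l : Fin n} {e : Ed}
    (h : e ∈ M.C j) (hl : j ≠ l) : e ∉ M.C l := fun h' =>
  (Finset.disjoint_left.1 (M.disj j l hl)) h h'

theorem Pr_zero {α : Type*} [DecidableEq α] {E : Finset α} {A : Finset α → Prop}
    (h : ∀ ω, ω ⊆ E → ¬ A ω) : Pr E A = 0 := by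
  classical
  rw [Pr_eq, Finset.filter_eq_empty_iff.2 (fun ω hω => h ω (Finset.mem_powerset.1 hω))]
  simp

/-- **D4a** -/
theorem d4a (hD : D2) : D4a := by
  intro U M hU v k j he hm c hc
  unfold X
  apply Pr_zero
  intro ω hω hcon
  have hx := ref_add hc hω
  generalize (fun e => c e + bd (↑ω) e) = x at hx hcon
  have hB : isB U (ed v k) := isB_of_mem M he
  have huniq : ∀ i, SConn x v k (M.u i) → i = j + 2 := by
    obtain ⟨l, _, hl⟩ := d3p U M hU v k (inE_of_isB hB) hm x hx
    intro i hi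
    rw [hl i hi, hl (j + 2) hcon]
  rw [sconn_iff] at hcon
  have hsupp : ∀ e, del x (ed v k) e ≠ 0 → inE U e := fun e h => hx.supp e (del_le h)
  have hj : dv (del x (ed v k)) (M.u j) = 1 := (cut_odd hx hm _).2 (Or.inr ⟨j, rfl⟩)
  obtain ⟨t, ht1, ht2, ht3⟩ := odd_partner (supp_finite hsupp) hj
  have f1 : ∀ j : Fin 3, j ≠ j + 2 := by decide
  have f2 : ∀ i j : Fin 3, i ≠ j → i ≠ j + 2 → i = j + 1 := by decide
  have hne : (j : Fin 3) ≠ j + 2 := f1 j
  have hns : ∀ w, Conn (del x (ed v k)) (M.u j) w → ¬ Conn (del x (ed v k)) (stv x v k) w := by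
    intro w h1 h2
    exact hne (huniq j (sconn_iff.2 (conn_trans h2 (conn_symm h1))))
  have ht : t = M.u (j + 1) := by
    rcases (cut_odd hx hm t).1 ht3 with e | ⟨i, e⟩
    · subst e
      exact absurd (conn_refl _ _) (hns _ ht2)
    · subst e
      have h1 : i ≠ j := fun h => ht1 (by rw [h])
      have h2 : i ≠ j + 2 := by
        rintro rfl
        exact hns _ ht2 hcon
      rw [f2 i j h1 h2]
  subst ht
  obtain ⟨Q, hQ1, hQ2, hQ3⟩ := exists_chain ht2
  obtain ⟨k2, _, _, _, hk2⟩ := M.out (j + 2)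
  have hk1 : ed (stv x v k) k ∈ M.C j := by rw [stv_edge]; exact he
  have key := hD U hU (ind (↑(M.C j) : Set Ed)) Q
    (fun e h => isB_of_mem M (j := j) (by
      by_contra hn
      exact h (ind_not (by simpa using hn))))
    (fun e h => hsupp e (by rw [hQ1 e h]; decide))
    (fun w => by rw [M.dvC, hQ2])
    {w | Conn (del x (ed v k)) (stv x v k) w}
    (fun w hw l => by
      by_contra hn
      exact hns w (hQ3 w l hn) hw)
    (stv x v k) (conn_refl _ _) (M.u (j + 2)) hcon (conn_in hsupp hcon) k (k2 + 1)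
    (isB_of_mem M hk1) (isB_of_mem M hk2)
  rw [ind_mem (by simpa using hk1), ind_not (by simpa using not_mem_other M hk2 hne.symm)] at key
  exact absurd key (by decide)

end Pool.Agent.H98.UC
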