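import Pool.Agent.H98.UC.D4a

set_option autoImplicit false

/-! D4b: the crossing event is a connection of marks. -/

namespace Pool.Agent.H98.UC

open Pool.Agent.H7.UC Pool.Agent.H75.Perc

/-- a leaf edge can be cut off -/
theorem conn_cut {x : Ed → ZMod 2} {v : Vx} {k : Fin 3} {a b : Vx} (p : (Gr x).Walk a b) :
    v ∉ p.support → Conn (del x (ed v k)) a b := by
  induction p with
  | nil => intro _; exact conn_refl _ _
  | @cons a c b h q ih =>
    intro hv
    rw [SimpleGraph.Walk.support_cons, List.mem_cons] at hv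
    push Not at hv
    obtain ⟨l, rfl, hl⟩ := h
    have hne : ed a l ≠ ed v k := by
      intro he
      rcases ((ed_eq_iff _ _ _ _).1 he).2 with e | e
      · exact hv.1 e
      · apply hv.2
        rw [e]
        exact SimpleGraph.Walk.start_mem_support q
    exact Relation.ReflTransGen.head ⟨l, rfl, by rw [del_ne x hne]; exact hl⟩ (ih hv.2)

/-- for a leaf `v` the half strand of each of its edges is the strand of `v` -/
theorem sconn_leaf {x : Ed → ZMod 2} {v : Vx} {k : Fin 3} {u : Vx} (hl : Leaf (Gr x) v)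
    (hne : v ≠ u) : SConn x v k u ↔ Conn x v u := by
  classical
  unfold SConn
  rcases z2 (x (ed v k)) with h | h
  · have h1 : del x (ed v k) = x := by
      funext e
      by_cases he : e = ed v k
      · subst he; rw [del_self, h]
      · exact del_ne x he
    rw [h, h1]; simp
  · rw [h]
    simp only [true_and, one_ne_zero, false_and, or_false]
    constructor
    · intro h1
      exact conn_trans (conn_step h) (conn_mono (fun e he => z2_ne (del_le (by rw [he]; decide))) h1)
    · intro h1
      obtain ⟨p, hp⟩ := (conn_iff.1 h1).exists_isPath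
      cases p with
      | nil => exact absurd rfl hne
      | @cons _ a _ h2 q =>
        rw [SimpleGraph.Walk.cons_isPath_iff] at hp
        have ha : a = nb v k := hl _ _ h2 ⟨k, rfl, h⟩
        subst ha
        exact conn_cut q hp.2

section Four

variable {U : Finset Fc} {M : Marks U 4} {ω : Finset Fc}

/-- the chain of the crossing event -/
noncomputable def xi (M : Marks U 4) (ω : Finset Fc) (e : Ed) : ZMod 2 :=
  ind (↑(M.C 0) : Set Ed) e + ind (↑(M.C 2) : Set Ed) e + bd (↑ω) e

theorem xi_supp (hω : ω ⊆ U) (e : Ed) (he : xi M ω e ≠ 0) : inE U e := by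
  by_cases h0 : e ∈ M.C 0
  · exact inE_of_isB (isB_of_mem M h0)
  by_cases h2 : e ∈ M.C 2
  · exact inE_of_isB (isB_of_mem M h2)
  unfold xi at he
  rw [ind_not (by simpa using h0), ind_not (by simpa using h2), zero_add, zero_add] at he
  exact bd_supp hω e he

theorem xi_dv (w : Vx) : dv (xi M ω) w =
    ind {M.u 0} w + ind {M.u 1} w + ind {M.u 2} w + ind {M.u 3} w := by
  have h : dv (xi M ω) w = dv (ind (↑(M.C 0) : Set Ed)) w + dv (ind (↑(M.C 2) : Set Ed)) w +
      dv (bd (↑ω)) w := by
    unfold xi dv; ring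
  rw [h, M.dvC, M.dvC, dv_bd]
  have e1 : (0 : Fin 4) + 1 = 1 := rfl
  have e2 : (2 : Fin 4) + 1 = 3 := rfl
  rw [e1, e2]
  ring

theorem xi_odd (w : Vx) : dv (xi M ω) w = 1 ↔ ∃ j, w = M.u j := by
  rw [xi_dv]
  constructor
  · intro h
    by_contra hn
    push Not at hn
    rw [ind_single_ne (hn 0), ind_single_ne (hn 1), ind_single_ne (hn 2), ind_single_ne (hn 3)] at h
    exact absurd h (by decide)
  · rintro ⟨j, rfl⟩
    have h : ∀ i l : Fin 4, ind {M.u i} (M.u l) = if i = l then 1 else 0 := by
      intro i l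
      by_cases h : i = l
      · subst h; rw [ind_single_self]; simp
      · rw [ind_single_ne (fun hh => h (M.inj hh).symm)]; simp [h]
    rw [h, h, h, h]
    fin_cases j <;> simp

theorem xi_miss (hω : ω ⊆ U) (w : Vx) : ∃ l, xi M ω (ed w l) = 0 := by
  by_cases hm : ∃ j, w = M.u j
  · obtain ⟨j, rfl⟩ := hm
    obtain ⟨l, hl⟩ := mark_miss M j
    refine ⟨l, ?_⟩
    by_contra hn
    exact hl (xi_supp hω _ hn)
  · apply miss_of_even
    exact (z2 _).resolve_right fun h => hm ((xi_odd w).1 h)

theorem third : ∀ k l : Fin 3, k ≠ l → ∃ m, m ≠ k ∧ m ≠ l ∧ ∀ i : Fin 3, i = k ∨ i = l ∨ i = m := by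
  decide

theorem dv_three (x : Ed → ZMod 2) (w : Vx) {k l m : Fin 3} (h1 : k ≠ l) (h2 : m ≠ k) (h3 : m ≠ l) :
    dv x w = x (ed w k) + x (ed w l) + x (ed w m) := by
  have key : ∀ (f : Fin 3 → ZMod 2) (k l m : Fin 3), k ≠ l → m ≠ k → m ≠ l →
      f 0 + f 1 + f 2 = f k + f l + f m := by decide
  exact key (fun i => x (ed w i)) k l m h1 h2 h3

/-- three present edges contradict the missing edge -/
theorem not_all {x : Ed → ZMod 2} {w : Vx} (h : ∃ l, x (ed w l) = 0) : ¬ ∀ l, x (ed w l) = 1 := by
  obtain ⟨l, hl⟩ := h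
  intro hn
  rw [hn l] at hl
  exact absurd hl (by decide)

/-- values on the arcs: the inner face decides -/
theorem face_of {e : Ed} (hB : isB U e) : ∃ a b, ((lf e = a ∧ rf e = b) ∨ (lf e = b ∧ rf e = a)) ∧
    a ∈ U ∧ b ∉ U := by
  rcases hB with h | h
  · exact ⟨_, _, Or.inl ⟨rfl, rfl⟩, h.1, h.2⟩
  · exact ⟨_, _, Or.inr ⟨rfl, rfl⟩, h.2, h.1⟩

theorem bd_face {s : Set Fc} {e : Ed} {a b : Fc}
    (h : (lf e = a ∧ rf e = b) ∨ (lf e = b ∧ rf e = a)) : bd s e = ind s a + ind s b := by
  unfold bd
  rcases h with h | h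
  · rw [h.1, h.2]
  · rw [h.1, h.2, add_comm]

/-- no crossing: `u 1` is not connected to `u 2` -/
theorem conn_cross (hω : ω ⊆ U) (hc : Conn (xi M ω) (M.u 1) (M.u 2)) :
    Cross U (M.C 0) (M.C 2) ω := by
  by_contra hn
  set K : Set Fc := {g | ∃ f, f ∈ ω ∧ touch (M.C 0) f ∧
    Relation.ReflTransGen (fun a b => b ∈ ω ∧ b ∈ U ∧ adjF a b) f g} with hK
  have hKω : ∀ g ∈ K, g ∈ ω := by
    rintro g ⟨f, hf, _, h⟩
    rcases Relation.ReflTransGen.cases_tail h with e | ⟨_, _, h'⟩
    · rw [← e] at hf; exact hf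
    · exact h'.1
  have hKstep : ∀ g ∈ K, ∀ g', g' ∈ ω → adjF g g' → g' ∈ K := by
    rintro g ⟨f, hf, ht, h⟩ g' hg' ha
    exact ⟨f, hf, ht, h.tail ⟨hg', hω hg', ha⟩⟩
  have hK0 : ∀ f, f ∈ ω → touch (M.C 0) f → f ∈ K := fun f hf ht =>
    ⟨f, hf, ht, Relation.ReflTransGen.refl⟩
  have hK2 : ∀ g ∈ K, ¬ touch (M.C 2) g := by
    rintro g ⟨f, hf, ht, h⟩ h2
    exact hn ⟨f, g, hf, hω hf, ht, h2, h⟩
  set z : Ed → ZMod 2 := fun e => ind (↑(M.C 0) : Set Ed) e + bd K e with hz
  have hle : ∀ e, z e = 1 → xi M ω e = 1 := by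
    intro e he
    simp only [hz] at he
    unfold xi
    by_cases h0 : e ∈ M.C 0
    · obtain ⟨a, b, hab, ha, hb⟩ := face_of (isB_of_mem M h0)
      have hta : touch (M.C 0) a := ⟨e, h0, by tauto⟩
      rw [bd_face hab] at he ⊢
      have hc2 : ind (↑(M.C 2) : Set Ed) e = 0 :=
        ind_not (by simpa using not_mem_other M h0 (by decide : (0 : Fin 4) ≠ 2))
      rw [hc2, add_zero]
      have hbK : b ∉ K := fun h => hb (hω (hKω b h))
      have hbω : b ∉ (↑ω : Set Fc) := fun h => hb (hω h)
      have e1 : ind K b = ind (↑ω : Set Fc) b := by rw [ind_not hbK, ind_not hbω]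
      have e2 : ind K a = ind (↑ω : Set Fc) a := by
        by_cases haω : a ∈ ω
        · rw [ind_mem (hK0 a haω hta), ind_mem (Finset.mem_coe.2 haω)]
        · rw [ind_not (fun h => haω (hKω a h)), ind_not (fun h => haω (Finset.mem_coe.1 h))]
      rw [e1, e2] at he
      exact he
    · rw [ind_not (by simpa using h0), zero_add] at he
      rw [ind_not (by simpa using h0), zero_add]
      by_cases h2 : e ∈ M.C 2
      · exfalso
        obtain ⟨a, b, hab, ha, hb⟩ := face_of (isB_of_mem M h2)
        have hta : touch (M.C 2) a := ⟨e, h2, by tauto⟩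
        rw [bd_face hab, ind_not (fun h => hK2 a h hta),
          ind_not (fun h => hb (hω (hKω b h)))] at he
        exact absurd he (by decide)
      · rw [ind_not (by simpa using h2), zero_add]
        have main : ∀ a b, ((lf e = a ∧ rf e = b) ∨ (lf e = b ∧ rf e = a)) → a ∈ K → b ∉ K →
            bd (↑ω) e = 1 := by
          intro a b hab ha hb
          rw [bd_face hab, ind_mem (by exact_mod_cast hKω a ha), ind_not, add_zero]
          intro hbω
          apply hb
          apply hKstep a ha b (by exact_mod_cast hbω)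
          exact ⟨e, hab⟩
        by_cases ha : lf e ∈ K
        · by_cases hb : rf e ∈ K
          · unfold bd at he
            rw [ind_mem ha, ind_mem hb] at he
            exact absurd he (by decide)
          · exact main _ _ (Or.inl ⟨rfl, rfl⟩) ha hb
        · by_cases hb : rf e ∈ K
          · exact main _ _ (Or.inr ⟨rfl, rfl⟩) hb ha
          · unfold bd at he
            rw [ind_not ha, ind_not hb] at he
            exact absurd he (by decide)
  have hzdv : ∀ w, dv z w = ind {M.u 0} w + ind {M.u 1} w := by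
    intro w
    rw [hz, dv_add, dv_bd, add_zero, M.dvC]
    rfl
  have hmiss := xi_miss (M := M) hω
  -- a vertex with a `z`-edge has all its edges in `z`
  have hclose : ∀ w, (∃ k, z (ed w k) = 1) → ∀ l, xi M ω (ed w l) = 1 → z (ed w l) = 1 := by
    rintro w ⟨k, hk⟩ l hl
    by_contra hzl
    have hzl' := (z2 _).resolve_right hzl
    have hkl : k ≠ l := by rintro rfl; exact hzl hk
    apply not_all (hmiss w)
    -- the third edge
    obtain ⟨m, hmk, hml, hall⟩ := third k l hkl
    have hsum : ∀ x : Ed → ZMod 2, dv x w = x (ed w k) + x (ed w l) + x (ed w m) := fun x =>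
      dv_three x w hkl hmk hml
    have hxk := hle _ hk
    have hm1 : xi M ω (ed w m) = 1 := by
      by_cases hodd : dv (xi M ω) w = 1
      · rw [hsum, hxk, hl] at hodd
        rcases z2 (xi M ω (ed w m)) with h | h
        · rw [h] at hodd; exact absurd hodd (by decide)
        · exact h
      · have hnm : ∀ j, w ≠ M.u j := fun j h => hodd ((xi_odd w).2 ⟨j, h⟩)
        have h1 := hzdv w
        rw [ind_single_ne (hnm 0), ind_single_ne (hnm 1), hsum, hk, hzl'] at h1
        apply hle
        rcases z2 (z (ed w m)) with h | h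
        · rw [h] at h1; exact absurd h1 (by decide)
        · exact h
    intro i
    rcases hall i with h | h | h
    · rw [h]; exact hxk
    · rw [h]; exact hl
    · rw [h]; exact hm1
  have hne01 : M.u 1 ≠ M.u 0 := fun h => absurd (M.inj h) (by decide)
  have hne20 : M.u 2 ≠ M.u 0 := fun h => absurd (M.inj h) (by decide)
  have hne21 : M.u 2 ≠ M.u 1 := fun h => absurd (M.inj h) (by decide)
  have hS : ∀ w, Conn (xi M ω) (M.u 1) w → ∃ k, z (ed w k) = 1 := by
    intro w hw
    induction hw with
    | refl =>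
      by_contra hno
      push Not at hno
      have h1 := hzdv (M.u 1)
      rw [ind_single_ne hne01, ind_single_self] at h1
      unfold dv at h1
      rw [(z2 _).resolve_right (hno 0), (z2 _).resolve_right (hno 1),
        (z2 _).resolve_right (hno 2)] at h1
      exact absurd h1 (by decide)
    | tail _ hbc ih =>
      obtain ⟨k, rfl, hk⟩ := hbc
      refine ⟨k, ?_⟩
      rw [ed_nb]
      exact hclose _ ih k hk
  obtain ⟨k, hk⟩ := hS _ hc
  have h2 := hzdv (M.u 2)
  rw [ind_single_ne hne20, ind_single_ne hne21] at h2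
  have h3 : dv (xi M ω) (M.u 2) = 1 := (xi_odd _).2 ⟨2, rfl⟩
  have h4 : ∀ l, xi M ω (ed (M.u 2) l) = z (ed (M.u 2) l) := by
    intro l
    rcases z2 (xi M ω (ed (M.u 2) l)) with h | h
    · rw [h]
      rcases z2 (z (ed (M.u 2) l)) with h' | h'
      · rw [h']
      · rw [hle _ h'] at h; exact absurd h (by decide)
    · rw [h, hclose _ ⟨k, hk⟩ l h]
  have h5 : dv (xi M ω) (M.u 2) = dv z (M.u 2) := by
    unfold dv
    rw [h4, h4, h4]
  rw [h5, h2] at h3
  exact absurd h3 (by decide)

/-- a crossing: `u 1` is connected to `u 2` -/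
theorem cross_conn (hD1 : D1) (hD2 : D2) (hU : IsDom U) (hω : ω ⊆ U)
    (hc : Cross U (M.C 0) (M.C 2) ω) : Conn (xi M ω) (M.u 1) (M.u 2) := by
  have hsupp := fun e he => xi_supp (M := M) hω e he
  have hfin := supp_finite (U := U) hsupp
  have hmiss := xi_miss (M := M) hω
  have hpart : ∀ j, ∃ t, (t ≠ M.u j ∧ Conn (xi M ω) (M.u j) t ∧ dv (xi M ω) t = 1) ∧
      ∀ t', t' ≠ M.u j → Conn (xi M ω) (M.u j) t' → dv (xi M ω) t' = 1 → t' = t := fun j =>
    partner hfin hmiss ((xi_odd _).2 ⟨j, rfl⟩)
  have hpart' : ∀ j, ∃ i, i ≠ j ∧ Conn (xi M ω) (M.u j) (M.u i) ∧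
      ∀ i', i' ≠ j → Conn (xi M ω) (M.u j) (M.u i') → i' = i := by
    intro j
    obtain ⟨t, ⟨h1, h2, h3⟩, h4⟩ := hpart j
    obtain ⟨i, rfl⟩ := (xi_odd t).1 h3
    refine ⟨i, fun h => h1 (by rw [h]), h2, fun i' hi' hc' => ?_⟩
    exact M.inj (h4 _ (fun h => hi' (M.inj h)) hc' ((xi_odd _).2 ⟨i', rfl⟩))
  obtain ⟨i, hi1, hi2, hi3⟩ := hpart' 1
  have hcases : i = 0 ∨ i = 2 ∨ i = 3 := by
    have : ∀ i : Fin 4, i ≠ 1 → i = 0 ∨ i = 2 ∨ i = 3 := by decide
    exact this i hi1
  rcases hcases with rfl | rfl | rfl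
  · -- connected to `u 0`
    exfalso
    obtain ⟨P, hP1, hP2, _⟩ := exists_chain hi2
    obtain ⟨s, hs, hbd⟩ := hD1 U hU (fun e => P e + ind (↑(M.C 0) : Set Ed) e)
      (fun e he => by
        by_cases h : P e = 0
        · simp only [h, zero_add] at he
          apply inE_of_isB
          apply isB_of_mem M (j := 0)
          by_contra hn
          exact he (ind_not (by simpa using hn))
        · exact hsupp e (by rw [hP1 e h]; decide))
      (fun w => by
        rw [dv_add, hP2, M.dvC]
        have e1 : (0 : Fin 4) + 1 = 1 := rfl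
        rw [e1]
        have h1 := z2_add_self (ind {M.u 0} w)
        have h2 := z2_add_self (ind {M.u 1} w)
        linear_combination h1 + h2)
    have hP0 : ∀ e, xi M ω e = 0 → P e = 0 := by
      intro e he
      by_contra hn
      rw [hP1 e hn] at he
      exact absurd he (by decide)
    obtain ⟨f, g, hfω, hfU, hf0, hg2, hfg⟩ := hc
    have hfs : f ∈ s := by
      obtain ⟨e, he, hef⟩ := hf0
      obtain ⟨a, b, hab, ha, hb⟩ := face_of (isB_of_mem M he)
      have haf : a = f := by
        rcases hab with hab | hab <;> rcases hef with hef | hef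
        · rw [← hab.1, hef]
        · exact absurd hfU (by rw [← hef, hab.2]; exact hb)
        · exact absurd hfU (by rw [← hef, hab.1]; exact hb)
        · rw [← hab.2, hef]
      subst haf
      have hxi : xi M ω e = 0 := by
        unfold xi
        rw [bd_face hab, ind_mem (by simpa using he),
          ind_not (by simpa using not_mem_other M he (by decide : (0 : Fin 4) ≠ 2)),
          ind_mem (by exact_mod_cast hfω), ind_not (fun h => hb (hω (by exact_mod_cast h)))]
        decide
      have h1 := hbd e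
      simp only [hP0 e hxi] at h1
      rw [ind_mem (by simpa using he), bd_face hab,
        ind_not (a := b) (fun h => hb (hs (by exact_mod_cast h)))] at h1
      by_contra hn
      rw [ind_not (by exact_mod_cast hn)] at h1
      exact absurd h1 (by decide)
    have hstep : ∀ a b, a ∈ ω → b ∈ ω → adjF a b → a ∈ s → b ∈ s := by
      rintro a b ha hb ⟨e, hab⟩ has
      have hnB : ¬ isB U e := by
        rintro (h | h) <;> rcases hab with hab | hab
        · exact h.2 (by rw [hab.2]; exact hω hb)
        · exact h.2 (by rw [hab.2]; exact hω ha)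
        · exact h.1 (by rw [hab.1]; exact hω ha)
        · exact h.1 (by rw [hab.1]; exact hω hb)
      have hn0 : e ∉ M.C 0 := fun h => hnB (isB_of_mem M h)
      have hn2 : e ∉ M.C 2 := fun h => hnB (isB_of_mem M h)
      have hxi : xi M ω e = 0 := by
        unfold xi
        rw [bd_face hab, ind_not (by simpa using hn0), ind_not (by simpa using hn2),
          ind_mem (by exact_mod_cast ha), ind_mem (by exact_mod_cast hb)]
        decide
      have h1 := hbd e
      simp only [hP0 e hxi] at h1
      rw [ind_not (by simpa using hn0), bd_face hab, ind_mem (a := a) (by exact_mod_cast has)] at h1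
      by_contra hn
      rw [ind_not (by exact_mod_cast hn)] at h1
      exact absurd h1 (by decide)
    have hgs : g ∈ ω ∧ g ∈ s := by
      clear hg2
      induction hfg with
      | refl => exact ⟨hfω, hfs⟩
      | tail _ h ih => exact ⟨h.1, hstep _ _ ih.1 h.1 h.2.2 ih.2⟩
    obtain ⟨e, he, hef⟩ := hg2
    obtain ⟨a, b, hab, ha, hb⟩ := face_of (isB_of_mem M he)
    have hgU : g ∈ U := hω hgs.1
    have haf : a = g := by
      rcases hab with hab | hab <;> rcases hef with hef | hef
      · rw [← hab.1, hef]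
      · exact absurd hgU (by rw [← hef, hab.2]; exact hb)
      · exact absurd hgU (by rw [← hef, hab.1]; exact hb)
      · rw [← hab.2, hef]
    subst haf
    have hn0 := not_mem_other M he (by decide : (2 : Fin 4) ≠ 0)
    have hxi : xi M ω e = 0 := by
      unfold xi
      rw [bd_face hab, ind_not (by simpa using hn0), ind_mem (by simpa using he),
        ind_mem (by exact_mod_cast hgs.1), ind_not (fun h => hb (hω (by exact_mod_cast h)))]
      decide
    have h1 := hbd e
    simp only [hP0 e hxi] at h1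
    rw [ind_not (by simpa using hn0), bd_face hab, ind_mem (by exact_mod_cast hgs.2),
      ind_not (a := b) (fun h => hb (hs (by exact_mod_cast h)))] at h1
    exact absurd h1 (by decide)
  · exact hi2
  · -- connected to `u 3`
    exfalso
    obtain ⟨i', h1', h2', h3'⟩ := hpart' 0
    have hcases : i' = 1 ∨ i' = 2 ∨ i' = 3 := by
      have : ∀ i : Fin 4, i ≠ 0 → i = 1 ∨ i = 2 ∨ i = 3 := by decide
      exact this i' h1'
    rcases hcases with rfl | rfl | rfl
    · exact absurd (hi3 0 (by decide) (conn_symm h2')) (by decide)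
    · obtain ⟨Q, hQ1, hQ2, hQ3⟩ := exists_chain h2'
      have hns : ∀ w, Conn (xi M ω) (M.u 0) w → ¬ Conn (xi M ω) (M.u 1) w := by
        intro w h1 h2
        exact absurd (hi3 0 (by decide) (conn_trans h2 (conn_symm h1))) (by decide)
      obtain ⟨k1, _, _, _, hk1⟩ := M.out 1
      obtain ⟨k2, _, _, _, hk2⟩ := M.out 3
      have key := hD2 U hU
        (fun e => ind (↑(M.C 0) : Set Ed) e + ind (↑(M.C 1) : Set Ed) e) Q
        (fun e h => by
          by_cases h0 : e ∈ M.C 0
          · exact isB_of_mem M h0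
          · apply isB_of_mem M (j := 1)
            by_contra hn
            exact h (by
              rw [ind_not (by simpa using h0), ind_not (by simpa using hn)]
              rfl))
        (fun e h => hsupp e (by rw [hQ1 e h]; decide))
        (fun w => by
          rw [dv_add, M.dvC, M.dvC, hQ2]
          have e1 : (0 : Fin 4) + 1 = 1 := rfl
          have e2 : (1 : Fin 4) + 1 = 2 := rfl
          rw [e1, e2]
          have h1 := z2_add_self (ind {M.u 1} w)
          linear_combination h1)
        {w | Conn (xi M ω) (M.u 1) w}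
        (fun w hw l => by
          by_contra hn
          exact hns w (hQ3 w l hn) hw)
        (M.u 1) (conn_refl _ _) (M.u 3) hi2 (conn_in hsupp hi2) (k1 + 1) (k2 + 1)
        (isB_of_mem M hk1) (isB_of_mem M hk2)
      rw [ind_not (by simpa using not_mem_other M hk1 (by decide : (1 : Fin 4) ≠ 0)),
        ind_mem (by simpa using hk1),
        ind_not (by simpa using not_mem_other M hk2 (by decide : (3 : Fin 4) ≠ 0)),
        ind_not (by simpa using not_mem_other M hk2 (by decide : (3 : Fin 4) ≠ 1))] at key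
      exact absurd key (by decide)
    · exact absurd (hi3 0 (by decide) (conn_trans hi2 (conn_symm h2'))) (by decide)

end Four

/-- **D4b** -/
theorem d4b (h1 : D1) (h1c : D1c) (h2 : D2) : D4b := by
  intro U M M3 hU e0 e1 e2 c hc k hk
  have hin : inV U (M.u 1) := by
    obtain ⟨l, hl, _⟩ := M.out 1
    exact ⟨l, hl⟩
  have hc0 : IsRef M3 (M.u 1) (fun e => ind (↑(M.C 0) : Set Ed) e + ind (↑(M.C 2) : Set Ed) e) := by
    constructor
    · intro e he
      by_cases h0 : e ∈ M.C 0
      · exact inE_of_isB (isB_of_mem M h0)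
      · apply inE_of_isB
        apply isB_of_mem M (j := 2)
        by_contra hn
        exact he (by
          rw [ind_not (by simpa using h0), ind_not (by simpa using hn)]
          rfl)
    · intro w
      rw [dv_add, M.dvC, M.dvC, e0, e1, e2]
      have e1 : (0 : Fin 4) + 1 = 1 := rfl
      have e2 : (2 : Fin 4) + 1 = 3 := rfl
      rw [e1, e2]
      ring
  rw [(h1c U M3 hU _ hin).2 c _ hc hc0 k 1]
  unfold X
  apply Pr_congr
  intro ω hω
  have hx : (fun e => ind (↑(M.C 0) : Set Ed) e + ind (↑(M.C 2) : Set Ed) e + bd (↑ω) e) =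
      xi M ω := rfl
  rw [hx, e1]
  have hleaf : Leaf (Gr (xi M ω)) (M.u 1) := leaf_of ((xi_odd _).2 ⟨1, rfl⟩) (xi_miss hω _)
  rw [sconn_leaf hleaf (fun h => absurd (M.inj h) (by decide))]
  exact ⟨conn_cross hω, cross_conn h1 h2 hU hω⟩

end Pool.Agent.H98.UC
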