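import Pool.Agent.H98.UC.Strand

set_option autoImplicit false

/-! D3p, D3c, D3a. -/

namespace Pool.Agent.H98.UC

open Pool.Agent.H7.UC Pool.Agent.H75.Perc

/-- the edges of `U` are finitely many -/
theorem inE_finite (U : Finset Fc) : {e | inE U e}.Finite := by
  have h : {e | inE U e} ⊆ (⋃ f ∈ (U : Set Fc), ⋃ k : Fin 3, ⋃ b : Bool, ⋃ p ∈ ({-1, 0, 1} : Set ℤ),
      ⋃ q ∈ ({-1, 0, 1} : Set ℤ), {((f.1 + p, f.2 + q, k) : Ed)}) := by
    rintro ⟨i, j, k⟩ he
    simp only [Set.mem_ofPred_eq, inE] at he
    simp only [Set.mem_iUnion]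
    rcases he with he | he
    · refine ⟨_, he, k, true, i - (lf (i, j, k)).1, ?_, j - (lf (i, j, k)).2, ?_, ?_⟩
      · fin_cases k <;> simp [lf, fc]
      · fin_cases k <;> simp [lf, fc]
      · simp
    · refine ⟨_, he, k, true, i - (rf (i, j, k)).1, ?_, j - (rf (i, j, k)).2, ?_, ?_⟩
      · fin_cases k <;> simp [rf, fc]
      · fin_cases k <;> simp [rf, fc]
      · simp
  refine Set.Finite.subset ?_ h
  refine Set.Finite.biUnion U.finite_toSet fun f _ => ?_
  refine Set.finite_iUnion fun k => Set.finite_iUnion fun b => ?_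
  refine Set.Finite.biUnion (by simp) fun p _ => Set.Finite.biUnion (by simp) fun q _ => ?_
  exact Set.finite_singleton _

theorem supp_finite {U : Finset Fc} {x : Ed → ZMod 2} (h : ∀ e, x e ≠ 0 → inE U e) :
    {e | x e ≠ 0}.Finite := (inE_finite U).subset fun e he => h e he

/-- `bd ω` is supported on the edges of `U` -/
theorem bd_supp {U ω : Finset Fc} (h : ω ⊆ U) (e : Ed) (he : bd (↑ω) e ≠ 0) : inE U e := by
  unfold inE
  by_contra hn
  push Not at hn
  apply he
  unfold bd
  rw [ind_not (fun hh => hn.1 (h hh)), ind_not (fun hh => hn.2 (h hh))]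
  rfl

/-- the boundary of a set of faces is a cycle -/
theorem dv_bd (s : Set Fc) (v : Vx) : dv (bd s) v = 0 := by
  have h2 : ∀ a b c : ZMod 2, (a + b) + (b + c) + (c + a) = 0 := by decide
  unfold dv bd
  rcases faces_ed v 0 with h0 | h0 <;> rcases faces_ed v 1 with h1 | h1 <;>
    rcases faces_ed v 2 with h2' | h2' <;>
    first
    | (exfalso; simp_all; done)
    | (rw [h0.2.1, h0.2.2, h1.2.1, h1.2.2, h2'.2.1, h2'.2.2]
       generalize ind s (fc v 0) = a at *
       have e0 : ((0 : Fin 3) + 1) = 1 := rfl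
       have e1 : ((0 : Fin 3) + 2) = 2 := rfl
       have e2 : ((1 : Fin 3) + 1) = 2 := rfl
       have e3 : ((1 : Fin 3) + 2) = 0 := rfl
       have e4 : ((2 : Fin 3) + 1) = 0 := rfl
       have e5 : ((2 : Fin 3) + 2) = 1 := rfl
       rw [e0, e1, e2, e3, e4, e5]
       generalize ind s (fc v 0) = a
       generalize ind s (fc v 1) = b
       generalize ind s (fc v 2) = c
       revert a b c
       decide)

/-- adding the boundary of a set of faces keeps a reference chain -/
theorem ref_add {U : Finset Fc} {M : Marks U 3} {v : Vx} {c : Ed → ZMod 2} (h : IsRef M v c)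
    {ω : Finset Fc} (hω : ω ⊆ U) : IsRef M v (fun e => c e + bd (↑ω) e) where
  supp e he := by
    by_cases h0 : c e = 0
    · rw [h0, zero_add] at he
      exact bd_supp hω e he
    · exact h.supp e h0
  dv w := by rw [dv_add, dv_bd, add_zero]; exact h.dv w

/-- moving the defect through the edge -/
theorem ref_move {U : Finset Fc} {M : Marks U 3} {v : Vx} {k : Fin 3} {c : Ed → ZMod 2}
    (h : IsRef M v c) (hk : inE U (ed v k)) : IsRef M (nb v k) (fun e => c e + sg (ed v k) e) where
  supp e he := by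
    by_cases h0 : c e = 0
    · by_cases hs : e = ed v k
      · subst hs; exact hk
      · rw [h0, sg_ne hs] at he
        exact absurd rfl he
    · exact h.supp e h0
  dv w := by
    rw [dv_add, dv_sg, h.dv w]
    have := z2_add_self (ind {v} w)
    linear_combination this

/-- a mark has no third edge -/
theorem mark_miss {U : Finset Fc} {n : ℕ} [NeZero n] (M : Marks U n) (j : Fin n) :
    ∃ k, ¬ inE U (ed (M.u j) k) := by
  obtain ⟨k, _, h1, h2, _⟩ := M.out j
  refine ⟨k, ?_⟩
  unfold inE
  rcases faces_ed (M.u j) k with h | h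
  · rw [h.2.1, h.2.2]; tauto
  · rw [h.2.1, h.2.2]; tauto

theorem del_self (x : Ed → ZMod 2) (e : Ed) : del x e e = 0 := by unfold del; simp
theorem del_ne (x : Ed → ZMod 2) {e e' : Ed} (h : e' ≠ e) : del x e e' = x e' := by
  unfold del; simp [h]
theorem del_le {x : Ed → ZMod 2} {e e' : Ed} (h : del x e e' ≠ 0) : x e' ≠ 0 := by
  by_cases he : e' = e
  · subst he; rw [del_self] at h; exact absurd rfl h
  · rwa [del_ne x he] at h

/-- the starting vertex of the half strand -/
noncomputable def stv (x : Ed → ZMod 2) (v : Vx) (k : Fin 3) : Vx := by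
  classical exact if x (ed v k) = 1 then nb v k else v

theorem sconn_iff {x : Ed → ZMod 2} {v : Vx} {k : Fin 3} {u : Vx} :
    SConn x v k u ↔ Conn (del x (ed v k)) (stv x v k) u := by
  unfold SConn stv
  rcases z2 (x (ed v k)) with h | h
  · rw [h]; simp
  · rw [h]; simp

theorem del_add (x : Ed → ZMod 2) (e : Ed) : del x e = fun e' => x e' + x e * sg e e' := by
  funext e'
  by_cases h : e' = e
  · subst h; rw [del_self, sg_self, mul_one, z2_add_self]
  · rw [del_ne x h, sg_ne h, mul_zero, add_zero]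

theorem dv_del {x : Ed → ZMod 2} (v : Vx) (k : Fin 3) (w : Vx) :
    dv (del x (ed v k)) w + ind {v} w = dv x w + ind {stv x v k} w := by
  have h : dv (del x (ed v k)) w = dv x w + x (ed v k) * (ind {v} w + ind {nb v k} w) := by
    rw [← dv_sg, del_add]
    unfold dv
    ring
  rw [h]
  unfold stv
  rcases z2 (x (ed v k)) with h1 | h1
  · rw [h1]; simp
  · rw [h1]
    simp only [if_true, one_mul]
    have := z2_add_self (ind {v} w)
    linear_combination this

/-- the degrees of the cut chain -/
theorem dv_cut {U : Finset Fc} {M : Marks U 3} {v : Vx} {k : Fin 3} {x : Ed → ZMod 2}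
    (h : IsRef M v x) (w : Vx) : dv (del x (ed v k)) w =
      ind {stv x v k} w + ind {M.u 0} w + ind {M.u 1} w + ind {M.u 2} w := by
  have h1 := dv_del (x := x) v k w
  rw [h.dv w] at h1
  linear_combination h1

theorem stv_cases (x : Ed → ZMod 2) (v : Vx) (k : Fin 3) : stv x v k = v ∨ stv x v k = nb v k := by
  unfold stv; split_ifs <;> simp

theorem stv_edge (x : Ed → ZMod 2) (v : Vx) (k : Fin 3) : ed (stv x v k) k = ed v k := by
  rcases stv_cases x v k with h | h <;> rw [h]
  exact ed_nb v k

theorem sum_marks {U : Finset Fc} (M : Marks U 3) (j : Fin 3) :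
    ind {M.u 0} (M.u j) + ind {M.u 1} (M.u j) + ind {M.u 2} (M.u j) = 1 := by
  have h : ∀ i l : Fin 3, ind {M.u i} (M.u l) = if i = l then 1 else 0 := by
    intro i l
    by_cases h : i = l
    · subst h; rw [ind_single_self]; simp
    · rw [ind_single_ne (fun hh => h (M.inj hh).symm)]; simp [h]
  rw [h, h, h]
  fin_cases j <;> simp

theorem sum_not_marks {U : Finset Fc} (M : Marks U 3) {w : Vx} (h : ∀ j, w ≠ M.u j) :
    ind {M.u 0} w + ind {M.u 1} w + ind {M.u 2} w = 0 := by
  rw [ind_single_ne (h 0), ind_single_ne (h 1), ind_single_ne (h 2)]; rfl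

/-- in the cut chain every vertex has a missing edge -/
theorem cut_miss {U : Finset Fc} {M : Marks U 3} {v : Vx} {k : Fin 3} {x : Ed → ZMod 2}
    (h : IsRef M v x) (w : Vx) : ∃ l, del x (ed v k) (ed w l) = 0 := by
  by_cases hm : ∃ j, w = M.u j
  · obtain ⟨j, rfl⟩ := hm
    obtain ⟨l, hl⟩ := mark_miss M j
    refine ⟨l, ?_⟩
    by_contra hn
    exact hl (h.supp _ (del_le hn))
  · push Not at hm
    by_cases hs : w = stv x v k
    · refine ⟨k, ?_⟩
      rw [hs, stv_edge, del_self]
    · apply miss_of_even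
      rw [dv_cut h, ind_single_ne hs, zero_add, sum_not_marks M hm]

/-- the odd vertices of the cut chain -/
theorem cut_odd {U : Finset Fc} {M : Marks U 3} {v : Vx} {k : Fin 3} {x : Ed → ZMod 2}
    (h : IsRef M v x) (hm : ∀ j, v ≠ M.u j ∧ nb v k ≠ M.u j) (w : Vx) :
    dv (del x (ed v k)) w = 1 ↔ w = stv x v k ∨ ∃ j, w = M.u j := by
  have hs : ∀ j, stv x v k ≠ M.u j := by
    intro j
    rcases stv_cases x v k with e | e <;> rw [e]
    · exact (hm j).1
    · exact (hm j).2
  rw [dv_cut h]
  constructor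
  · intro h1
    by_contra hn
    push Not at hn
    rw [ind_single_ne hn.1, zero_add, sum_not_marks M hn.2] at h1
    exact absurd h1 (by decide)
  · rintro (e | ⟨j, e⟩)
    · subst e
      rw [ind_single_self]
      have := sum_not_marks M hs
      linear_combination this
    · subst e
      rw [ind_single_ne (hs j).symm]
      have := sum_marks M j
      linear_combination this

/-- **D3p** -/
theorem d3p : D3p := by
  intro U M _ v k _ hm x hx
  have hfin : {e | del x (ed v k) e ≠ 0}.Finite :=
    supp_finite (U := U) fun e he => hx.supp e (del_le he)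
  have hs : dv (del x (ed v k)) (stv x v k) = 1 := (cut_odd hx hm _).2 (Or.inl rfl)
  obtain ⟨t, ⟨h1, h2, h3⟩, h4⟩ := partner hfin (cut_miss hx) hs
  rcases (cut_odd hx hm t).1 h3 with e | ⟨j, e⟩
  · exact absurd e h1
  · subst e
    refine ⟨j, sconn_iff.2 h2, fun i hi => ?_⟩
    apply M.inj
    apply h4 (M.u i) _ (sconn_iff.1 hi) ((cut_odd hx hm _).2 (Or.inr ⟨i, rfl⟩))
    rcases stv_cases x v k with e | e <;> rw [e]
    · exact ((hm i).1).symm
    · exact ((hm i).2).symm

/-- **D3c** -/
theorem d3c : D3c := by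
  classical
  intro U M hU v k he hm c hc
  unfold X
  have key : ∀ ω ∈ U.powerset, ∃ j, SConn (fun e => c e + bd (↑ω) e) v k (M.u j) ∧
      ∀ i, SConn (fun e => c e + bd (↑ω) e) v k (M.u i) → i = j := by
    intro ω hω
    exact d3p U M hU v k he hm _ (ref_add hc (Finset.mem_powerset.1 hω))
  simp only [Pr_eq]
  rw [← Finset.sum_div]
  have h1 : ∑ j : Fin 3, (((U.powerset.filter (fun ω : Finset Fc =>
      SConn (fun e => c e + bd (↑ω) e) v k (M.u j))).card : ℕ) : ℝ) = (U.powerset.card : ℝ) := by
    have h2 : ∀ j : Fin 3, (((U.powerset.filter (fun ω : Finset Fc =>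
        SConn (fun e => c e + bd (↑ω) e) v k (M.u j))).card : ℕ) : ℝ) =
        ∑ ω ∈ U.powerset, if SConn (fun e => c e + bd (↑ω) e) v k (M.u j) then (1 : ℝ) else 0 := by
      intro j
      rw [Finset.card_filter]
      push_cast
      rfl
    simp only [h2]
    rw [Finset.sum_comm]
    have h3 : ∀ ω ∈ U.powerset, ∑ j : Fin 3,
        (if SConn (fun e => c e + bd (↑ω) e) v k (M.u j) then (1 : ℝ) else 0) = 1 := by
      intro ω hω
      obtain ⟨j, hj, hu⟩ := key ω hω
      rw [Finset.sum_eq_single j]
      · simp [hj]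
      · intro i _ hi
        have : ¬ SConn (fun e => c e + bd (↑ω) e) v k (M.u i) := fun h => hi (hu i h)
        simp [this]
      · intro h; exact absurd (Finset.mem_univ j) h
    rw [Finset.sum_congr rfl h3]
    simp
  rw [h1, Finset.card_powerset]
  push_cast
  exact div_self (by positivity)

/-- **D3a** (from the independence of the reference chain) -/
theorem d3a (hD : D1c) : D3a := by
  intro U M hU v k he c c' hc hc' j
  have hin : inV U (nb v k) := by
    unfold inE at he
    rcases faces_ed v k with h | h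
    · rw [h.2.1, h.2.2] at he
      rcases he with he | he
      · exact ⟨k + 2, by rw [fc_nb2]; exact he⟩
      · exact ⟨k + 1, by rw [fc_nb1]; exact he⟩
    · rw [h.2.1, h.2.2] at he
      rcases he with he | he
      · exact ⟨k + 1, by rw [fc_nb1]; exact he⟩
      · exact ⟨k + 2, by rw [fc_nb2]; exact he⟩
  rw [(hD U M hU (nb v k) hin).2 c' _ hc' (ref_move hc he) k j]
  unfold X
  apply Pr_congr
  intro ω _
  rw [sconn_iff, sconn_iff]
  have h1 : del (fun e => c e + sg (ed v k) e + bd (↑ω) e) (ed (nb v k) k) =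
      del (fun e => c e + bd (↑ω) e) (ed v k) := by
    rw [ed_nb]
    funext e
    by_cases h : e = ed v k
    · subst h; rw [del_self, del_self]
    · rw [del_ne _ h, del_ne _ h, sg_ne h, add_zero]
  have h2 : stv (fun e => c e + sg (ed v k) e + bd (↑ω) e) (nb v k) k =
      stv (fun e => c e + bd (↑ω) e) v k := by
    unfold stv
    rw [ed_nb, nb_nb]
    simp only [sg_self]
    have key : ∀ a b : ZMod 2, (a + 1 + b = 1 ↔ ¬ (a + b = 1)) := by decide
    have key' := key (c (ed v k)) (bd (↑ω) (ed v k))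
    by_cases hh : c (ed v k) + bd (↑ω) (ed v k) = 1
    · rw [if_pos hh, if_neg (fun h => (key'.1 h) hh)]
    · rw [if_neg hh, if_pos (key'.2 hh)]
  rw [h1, h2]

end Pool.Agent.H98.UC
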